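import Pool.Agent.U456.KB.FracHelly

/-!
# A positive-fraction version of Kirchberger's theorem

Let `A, B` be disjoint sets of `N` points of `ℝ ^ d`. If at least a `(1 - ε)` fraction of the
`(d + 2)`-element subsets `S` of `A ∪ B` are good (some hyperplane separates `A ∩ S` from `B ∩ S`), then
there are `A' ⊆ A` and `B' ⊆ B` with at least `(1 - g ε) N` points each that are separated by a
hyperplane, where `g ε → 0` as `ε → 0` and `g` depends on `d` only.

General position is not needed if there is at least one subset of `d + 2` points, `d + 2 ≤ 2 N`. If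
`2 N < d + 2` then general position means that `A ∪ B` is affinely independent.

Proof. Put `C a = {(t, v) : 1 ≤ t + ⟨v, a⟩}` for `a ∈ A` and `C b = {(t, v) : t + ⟨v, b⟩ ≤ -1}` for `b ∈ B`,
closed half-spaces of `ℝ ^ (d + 1)`. A set `S` is good if and only if the half-spaces of its elements
have a common point, and `A', B'` are the elements of a set of almost all of these half-spaces with a
common point. So the theorem follows from a fractional Helly theorem
(`Pool.Agent.U456.KB.frac_helly`).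
-/

set_option autoImplicit false

open Finset Module Filter Topology

namespace Pool.Agent.Results.MP_ff3a4f_co.PositiveFraction

/-- Some hyperplane `{x | ⟨v, x⟩ = c}` separates the finite sets `P` and `Q`. -/
def Sep {d : ℕ} (P Q : Finset (EuclideanSpace ℝ (Fin d))) : Prop :=
  ∃ v : EuclideanSpace ℝ (Fin d), v ≠ 0 ∧
    ∃ c : ℝ, (∀ p ∈ P, c < inner ℝ v p) ∧ (∀ q ∈ Q, inner ℝ v q < c)

section proofs

open Pool.Agent.U456.KB

variable {d : ℕ}


/-- the lift of a point -/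
noncomputable def lift (x : (EuclideanSpace ℝ (Fin d))) : (WithLp 2 (ℝ × EuclideanSpace ℝ (Fin d))) := WithLp.toLp 2 ((1 : ℝ), x)

lemma inner_lift (w : (WithLp 2 (ℝ × EuclideanSpace ℝ (Fin d)))) (x : (EuclideanSpace ℝ (Fin d))) : inner ℝ w (lift x) = w.fst + inner ℝ w.snd x := by
  rw [WithLp.prod_inner_apply]
  simp [lift]

open Classical in
/-- the half-space of a point -/
noncomputable def H (A : Finset (EuclideanSpace ℝ (Fin d))) (x : (EuclideanSpace ℝ (Fin d))) : Set (WithLp 2 (ℝ × EuclideanSpace ℝ (Fin d))) :=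
  if x ∈ A then {w | 1 ≤ inner ℝ w (lift x)} else {w | inner ℝ w (lift x) ≤ -1}

lemma convex_H (A : Finset (EuclideanSpace ℝ (Fin d))) (x : (EuclideanSpace ℝ (Fin d))) : Convex ℝ (H A x) := by
  have hl : IsLinearMap ℝ (fun w : (WithLp 2 (ℝ × EuclideanSpace ℝ (Fin d))) => inner ℝ w (lift x)) :=
    ⟨fun a b => inner_add_left a b _, fun c a => by
      rw [real_inner_smul_left]; rfl⟩
  unfold H
  split_ifs
  · exact convex_halfSpace_ge hl 1
  · exact convex_halfSpace_le hl (-1)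

lemma isClosed_H (A : Finset (EuclideanSpace ℝ (Fin d))) (x : (EuclideanSpace ℝ (Fin d))) : IsClosed (H A x) := by
  have hl : Continuous (fun w : (WithLp 2 (ℝ × EuclideanSpace ℝ (Fin d))) => inner ℝ w (lift x)) := by fun_prop
  unfold H
  split_ifs
  · exact isClosed_le continuous_const hl
  · exact isClosed_le hl continuous_const

lemma sep_empty_left (hd : 1 ≤ d) (Q : Finset (EuclideanSpace ℝ (Fin d))) : Sep ∅ Q := by
  obtain ⟨M, hM⟩ := Finset.exists_le
    (Q.image fun q => inner ℝ (EuclideanSpace.single (⟨0, hd⟩ : Fin d) (1 : ℝ)) q)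
  refine ⟨EuclideanSpace.single (⟨0, hd⟩ : Fin d) (1 : ℝ), ?_, M + 1, by simp, fun q hq => ?_⟩
  · intro h
    have := congrArg (fun f : (EuclideanSpace ℝ (Fin d)) => f ⟨0, hd⟩) h
    simp at this
  · have := hM _ (mem_image_of_mem _ hq)
    linarith

lemma Sep.symm {P Q : Finset (EuclideanSpace ℝ (Fin d))} (h : Sep P Q) : Sep Q P := by
  obtain ⟨v, hv, c, h1, h2⟩ := h
  refine ⟨-v, by simpa using hv, -c, fun q hq => ?_, fun p hp => ?_⟩
  · rw [inner_neg_left]
    linarith [h2 q hq]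
  · rw [inner_neg_left]
    linarith [h1 p hp]

lemma sep_empty_right (hd : 1 ≤ d) (P : Finset (EuclideanSpace ℝ (Fin d))) : Sep P ∅ := (sep_empty_left hd P).symm

lemma sep_of_point (hd : 1 ≤ d) (w : (WithLp 2 (ℝ × EuclideanSpace ℝ (Fin d)))) {P Q : Finset (EuclideanSpace ℝ (Fin d))}
    (hP : ∀ p ∈ P, 1 ≤ inner ℝ w (lift p)) (hQ : ∀ q ∈ Q, inner ℝ w (lift q) ≤ -1) : Sep P Q := by
  rcases P.eq_empty_or_nonempty with rfl | ⟨p, hp⟩
  · exact sep_empty_left hd Q
  rcases Q.eq_empty_or_nonempty with rfl | ⟨q, hq⟩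
  · exact sep_empty_right hd P
  by_cases h0 : w.snd = 0
  · have h1 := hP p hp
    have h2 := hQ q hq
    rw [inner_lift, h0, inner_zero_left] at h1 h2
    linarith
  · refine ⟨w.snd, h0, -w.fst, fun p hp => ?_, fun q hq => ?_⟩
    · have := hP p hp
      rw [inner_lift] at this
      linarith
    · have := hQ q hq
      rw [inner_lift] at this
      linarith

lemma exists_margin {α : Type*} (S : Finset α) (f : α → ℝ) (h : ∀ x ∈ S, 0 < f x) :
    ∃ μ : ℝ, 0 < μ ∧ ∀ x ∈ S, μ ≤ f x := by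
  rcases S.eq_empty_or_nonempty with rfl | hS
  · exact ⟨1, one_pos, by simp⟩
  · obtain ⟨x, hx, hm⟩ := S.exists_min_image f hS
    exact ⟨f x, h x hx, hm⟩

open Classical in
/-- for a good set, the half-spaces have a common point -/
lemma nonempty_of_sep {A B : Finset (EuclideanSpace ℝ (Fin d))} {S : Finset (EuclideanSpace ℝ (Fin d))} (hS : S ⊆ A ∪ B)
    (h : Sep (A ∩ S) (B ∩ S)) : (P (H A) S).Nonempty := by
  obtain ⟨v, -, c, h1, h2⟩ := h
  obtain ⟨μ, hμ, hm⟩ := exists_margin S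
    (fun x => if x ∈ A then inner ℝ v x - c else c - inner ℝ v x) (by
      intro x hx
      by_cases hA : x ∈ A
      · rw [if_pos hA]
        linarith [h1 x (mem_inter.2 ⟨hA, hx⟩)]
      · rw [if_neg hA]
        have hB : x ∈ B := by
          rcases mem_union.1 (hS hx) with h | h
          · exact absurd h hA
          · exact h
        linarith [h2 x (mem_inter.2 ⟨hB, hx⟩)])
  refine ⟨WithLp.toLp 2 (-c / μ, (1 / μ) • v), ?_⟩
  rw [mem_P]
  intro x hx
  have h3 := hm x hx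
  have h4 : inner ℝ (WithLp.toLp 2 (-c / μ, (1 / μ) • v) : (WithLp 2 (ℝ × EuclideanSpace ℝ (Fin d)))) (lift x) =
      (inner ℝ v x - c) / μ := by
    rw [inner_lift]
    show -c / μ + inner ℝ ((1 / μ) • v) x = _
    rw [real_inner_smul_left]
    ring
  unfold H
  split_ifs with hA
  · rw [if_pos hA] at h3
    rw [Set.mem_ofPred_eq, h4, le_div_iff₀ hμ]
    linarith
  · rw [if_neg hA] at h3
    rw [Set.mem_ofPred_eq, h4, div_le_iff₀ hμ]
    linarith

lemma finrank_W : finrank ℝ (WithLp 2 (ℝ × EuclideanSpace ℝ (Fin d))) = d + 1 := by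
  rw [LinearEquiv.finrank_eq (WithLp.linearEquiv 2 ℝ (ℝ × EuclideanSpace ℝ (Fin d)))]
  rw [finrank_prod, finrank_self, finrank_euclideanSpace_fin]
  ring

open Classical in
/-- affinely independent sets are separated -/
lemma sep_of_affineIndependent (hd : 1 ≤ d) {A B : Finset (EuclideanSpace ℝ (Fin d))} (hAB : Disjoint A B)
    (h : AffineIndependent ℝ ((↑) : ↥(A ∪ B) → (EuclideanSpace ℝ (Fin d)))) : Sep A B := by
  rcases A.eq_empty_or_nonempty with rfl | ⟨p, hp⟩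
  · exact sep_empty_left hd B
  rcases B.eq_empty_or_nonempty with rfl | ⟨q, hq⟩
  · exact sep_empty_right hd A
  have h1 := h.convexHull_inter (t₁ := A) (t₂ := B) subset_union_left subset_union_right
  have h2 : ((A : Set (EuclideanSpace ℝ (Fin d))) ∩ (B : Set (EuclideanSpace ℝ (Fin d)))) = ∅ := by
    rw [← coe_inter, disjoint_iff_inter_eq_empty.1 hAB, coe_empty]
  rw [h2, convexHull_empty] at h1
  have h3 : Disjoint (convexHull ℝ (A : Set (EuclideanSpace ℝ (Fin d)))) (convexHull ℝ (B : Set (EuclideanSpace ℝ (Fin d)))) :=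
    Set.disjoint_iff_inter_eq_empty.2 h1.symm
  obtain ⟨f, u, v, hf1, huv, hf2⟩ := geometric_hahn_banach_compact_closed (convex_convexHull ℝ _)
    (A.finite_toSet.isCompact_convexHull ℝ) (convex_convexHull ℝ _)
    (B.finite_toSet.isCompact_convexHull ℝ).isClosed h3
  have key : ∀ x : (EuclideanSpace ℝ (Fin d)), inner ℝ ((InnerProductSpace.toDual ℝ (EuclideanSpace ℝ (Fin d))).symm f) x = f x := fun x => by
    simp
  have hA : ∀ a ∈ A, f a < u := fun a ha => hf1 a (subset_convexHull ℝ _ ha)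
  have hB : ∀ b ∈ B, v < f b := fun b hb => hf2 b (subset_convexHull ℝ _ hb)
  refine Sep.symm ⟨(InnerProductSpace.toDual ℝ (EuclideanSpace ℝ (Fin d))).symm f, ?_, u, fun b hb => ?_, fun a ha => ?_⟩
  · intro h0
    have h4 := key p
    have h5 := key q
    rw [h0, inner_zero_left] at h4 h5
    linarith [hA p hp, hB q hq]
  · rw [key]
    linarith [hB b hb]
  · rw [key]
    exact hA a ha

open Classical in
/-- the statement for given `ε` and `δ` -/
def St (d : ℕ) (ε δ : ℝ) : Prop :=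
  ∀ (N : ℕ) (A B : Finset (EuclideanSpace ℝ (Fin d))), Disjoint A B → #A = N → #B = N →
    (d + 2 ≤ 2 * N ∨ AffineIndependent ℝ ((↑) : ↥(A ∪ B) → EuclideanSpace ℝ (Fin d))) →
    (1 - ε) * ((2 * N).choose (d + 2) : ℝ) ≤
      (#{S ∈ powersetCard (d + 2) (A ∪ B) | Sep (A ∩ S) (B ∩ S)} : ℝ) →
    ∃ A' ⊆ A, ∃ B' ⊆ B, Sep A' B' ∧ (1 - δ) * (N : ℝ) ≤ (#A' : ℝ) ∧ (1 - δ) * (N : ℝ) ≤ (#B' : ℝ)

lemma St.mono {ε δ δ' : ℝ} (h : St d ε δ) (hδ : δ ≤ δ') : St d ε δ' := by
  intro N A B h1 h2 h3 h4 h5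
  obtain ⟨A', hA', B', hB', hs, ha, hb⟩ := h N A B h1 h2 h3 h4 h5
  have : (1 - δ') * (N : ℝ) ≤ (1 - δ) * (N : ℝ) :=
    mul_le_mul_of_nonneg_right (by linarith) (Nat.cast_nonneg _)
  exact ⟨A', hA', B', hB', hs, this.trans ha, this.trans hb⟩

lemma St.anti {ε ε' δ : ℝ} (h : St d ε δ) (hε : ε' ≤ ε) : St d ε' δ := by
  intro N A B h1 h2 h3 h4 h5
  refine h N A B h1 h2 h3 h4 (le_trans ?_ h5)
  exact mul_le_mul_of_nonneg_right (by linarith) (Nat.cast_nonneg _)

lemma St.one (hd : 1 ≤ d) (ε : ℝ) : St d ε 1 := by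
  intro N A B _ _ _ _ _
  refine ⟨∅, empty_subset _, ∅, empty_subset _, sep_empty_left hd ∅, ?_, ?_⟩ <;> simp

/-- the main step: from the fractional Helly theorem -/
lemma exists_St (hd : 1 ≤ d) {δ : ℝ} (hδ : 0 < δ) : ∃ ε : ℝ, 0 < ε ∧ St d ε δ := by
  classical
  obtain ⟨ε, hε, hF⟩ := frac_helly (WithLp 2 (ℝ × EuclideanSpace ℝ (Fin d))) (δ := δ / 2) (by linarith)
  refine ⟨ε, hε, ?_⟩
  intro N A B hAB hA hB hN hgood
  rcases hN with hN | hN
  swap
  · refine ⟨A, Subset.rfl, B, Subset.rfl, sep_of_affineIndependent hd hAB hN, ?_, ?_⟩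
    · rw [hA]
      have : (0 : ℝ) ≤ δ * N := by positivity
      linarith
    · rw [hB]
      have : (0 : ℝ) ≤ δ * N := by positivity
      linarith
  have hcard : #(A ∪ B) = 2 * N := by
    rw [card_union_of_disjoint hAB, hA, hB]
    ring
  have hbad : (#{S ∈ powersetCard (finrank ℝ (WithLp 2 (ℝ × EuclideanSpace ℝ (Fin d))) + 1) (A ∪ B) | ¬ (P (H A) S).Nonempty} : ℝ) ≤
      ε * ((#(A ∪ B)).choose (finrank ℝ (WithLp 2 (ℝ × EuclideanSpace ℝ (Fin d))) + 1) : ℝ) := by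
    rw [finrank_W, hcard]
    show (#{S ∈ powersetCard (d + 2) (A ∪ B) | ¬ (P (H A) S).Nonempty} : ℝ) ≤
      ε * ((2 * N).choose (d + 2) : ℝ)
    have h1 : #{S ∈ powersetCard (d + 2) (A ∪ B) | ¬ (P (H A) S).Nonempty} ≤
        #{S ∈ powersetCard (d + 2) (A ∪ B) | ¬ Sep (A ∩ S) (B ∩ S)} := by
      refine card_le_card fun S hS => ?_
      rw [mem_filter] at hS ⊢
      exact ⟨hS.1, fun h => hS.2 (nonempty_of_sep (mem_powersetCard.1 hS.1).1 h)⟩
    have h2 := card_filter_add_card_filter_not (s := powersetCard (d + 2) (A ∪ B))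
      (fun S => Sep (A ∩ S) (B ∩ S))
    rw [card_powersetCard, hcard] at h2
    have h3 : (#{S ∈ powersetCard (d + 2) (A ∪ B) | Sep (A ∩ S) (B ∩ S)} : ℝ) +
        (#{S ∈ powersetCard (d + 2) (A ∪ B) | ¬ Sep (A ∩ S) (B ∩ S)} : ℝ) =
        ((2 * N).choose (d + 2) : ℝ) := by exact_mod_cast h2
    have h4 : (#{S ∈ powersetCard (d + 2) (A ∪ B) | ¬ (P (H A) S).Nonempty} : ℝ) ≤
        (#{S ∈ powersetCard (d + 2) (A ∪ B) | ¬ Sep (A ∩ S) (B ∩ S)} : ℝ) := by
      exact_mod_cast h1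
    linarith
  obtain ⟨w, hw⟩ := hF (EuclideanSpace ℝ (Fin d)) (H A) (convex_H A) (isClosed_H A) (A ∪ B)
    (by rw [finrank_W, hcard]; omega) hbad
  have hsplit : #{x ∈ A ∪ B | w ∈ H A x} ≤ #{x ∈ A | w ∈ H A x} + #{x ∈ B | w ∈ H A x} := by
    rw [filter_union]
    exact card_union_le _ _
  have hA1 : #{x ∈ A | w ∈ H A x} ≤ N := by
    rw [← hA]
    exact card_filter_le _ _
  have hB1 : #{x ∈ B | w ∈ H A x} ≤ N := by
    rw [← hB]
    exact card_filter_le _ _
  rw [hcard] at hw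
  push_cast at hw
  have h5 : (#{x ∈ A ∪ B | w ∈ H A x} : ℝ) ≤
      (#{x ∈ A | w ∈ H A x} : ℝ) + (#{x ∈ B | w ∈ H A x} : ℝ) := by exact_mod_cast hsplit
  have h6 : (#{x ∈ A | w ∈ H A x} : ℝ) ≤ N := by exact_mod_cast hA1
  have h7 : (#{x ∈ B | w ∈ H A x} : ℝ) ≤ N := by exact_mod_cast hB1
  refine ⟨{x ∈ A | w ∈ H A x}, filter_subset _ _, {x ∈ B | w ∈ H A x}, filter_subset _ _, ?_,
    by linarith, by linarith⟩
  refine sep_of_point hd w (fun p hp => ?_) (fun q hq => ?_)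
  · rw [mem_filter] at hp
    have := hp.2
    rw [H, if_pos hp.1] at this
    exact this
  · rw [mem_filter] at hq
    have := hq.2
    rw [H, if_neg (disjoint_right.1 hAB hq.1)] at this
    exact this

end proofs

open Classical in
/-- **A positive-fraction version of Kirchberger's theorem.** Disjoint sets `A`, `B` of `N` points of
`ℝ ^ d` such that at least a `(1 - ε)` fraction of the `(d + 2)`-subsets of `A ∪ B` are good have
subsets `A'`, `B'` of at least `(1 - g ε) N` points each that are separated by a hyperplane, where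
`g ε → 0` for `ε → 0`. -/
theorem result : ∀ d : ℕ, 1 ≤ d → ∃ g : ℝ → ℝ, Tendsto g (𝓝[>] 0) (𝓝 0) ∧
    ∀ ε : ℝ, 0 < ε → ∀ (N : ℕ) (A B : Finset (EuclideanSpace ℝ (Fin d))),
      Disjoint A B → #A = N → #B = N →
      (d + 2 ≤ 2 * N ∨ AffineIndependent ℝ ((↑) : ↥(A ∪ B) → EuclideanSpace ℝ (Fin d))) →
      (1 - ε) * ((2 * N).choose (d + 2) : ℝ) ≤
        (#{S ∈ powersetCard (d + 2) (A ∪ B) | Sep (A ∩ S) (B ∩ S)} : ℝ) →
      ∃ A' ⊆ A, ∃ B' ⊆ B, Sep A' B' ∧
        (1 - g ε) * (N : ℝ) ≤ (#A' : ℝ) ∧ (1 - g ε) * (N : ℝ) ≤ (#B' : ℝ) := by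
  intro d hd
  have hbdd : ∀ ε : ℝ, BddBelow {δ : ℝ | 0 ≤ δ ∧ St d ε δ} := fun ε => ⟨0, fun δ hδ => hδ.1⟩
  have hne : ∀ ε : ℝ, {δ : ℝ | 0 ≤ δ ∧ St d ε δ}.Nonempty := fun ε =>
    ⟨1, zero_le_one, St.one hd ε⟩
  refine ⟨fun ε => sInf {δ : ℝ | 0 ≤ δ ∧ St d ε δ} + ε, ?_, ?_⟩
  · rw [Metric.tendsto_nhdsWithin_nhds]
    intro η hη
    obtain ⟨ε₀, hε₀, hS⟩ := exists_St hd (δ := η / 2) (by linarith)
    refine ⟨min ε₀ (η / 2), lt_min hε₀ (by linarith), fun {ε} hε hd' => ?_⟩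
    rw [Real.dist_eq, sub_zero] at hd' ⊢
    have hε' : 0 < ε := hε
    rw [abs_of_pos hε'] at hd'
    have h1 : ε < ε₀ := lt_of_lt_of_le hd' (min_le_left _ _)
    have h2 : ε < η / 2 := lt_of_lt_of_le hd' (min_le_right _ _)
    have h3 : sInf {δ : ℝ | 0 ≤ δ ∧ St d ε δ} ≤ η / 2 :=
      csInf_le (hbdd ε) ⟨by linarith, hS.anti h1.le⟩
    have h4 : 0 ≤ sInf {δ : ℝ | 0 ≤ δ ∧ St d ε δ} := le_csInf (hne ε) fun δ hδ => hδ.1
    rw [abs_of_nonneg (by linarith)]
    linarith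
  · intro ε hε
    have h1 : sInf {δ : ℝ | 0 ≤ δ ∧ St d ε δ} < sInf {δ : ℝ | 0 ≤ δ ∧ St d ε δ} + ε := by linarith
    obtain ⟨δ, hδ, hδ2⟩ := exists_lt_of_csInf_lt (hne ε) h1
    exact hδ.2.mono hδ2.le

end Pool.Agent.Results.MP_ff3a4f_co.PositiveFraction
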